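import Pool.Agent.Lib.MP_1a91b9_nuX.AN.Val

/-!
# G7: wild ramification at an ordinary prime number: the interface of the analytic part

`ℓ = p * cj p` is split in `K` with `IsCoprime p (cj p)`; `PlP p A` are the places of `ℂ` above `p`.
`GoodW` are the weights `h` for which the values of the partial series
`∑ h(r) conj(N r) |N r|^(-2s)` are integral (`ValW`); `UnitW` is the normalised unit property.
-/

set_option autoImplicit false

namespace Pool.Agent.Lib.MP_1a91b9_nuW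

variable [Pool.Agent.Lib.MP_1a91b9_nuT.CD]

open Pool.Agent.Lib.MP_1a91b9_nuT hiding cj
open NumberField IsDedekindDomain Module Pool.Agent.Lib.MP_1a91b9_nt
  Pool.Agent.Lib.MP_1a91b9_nuT.S4 Pool.Agent.Lib.MP_1a91b9_nuG Pool.Agent.Lib.MP_1a91b9_nuX

universe u

/-- conjugation of `𝓞 K` -/
noncomputable abbrev cK (a : 𝓞 K) : 𝓞 K := Pool.Agent.Lib.MP_1a91b9_nuT.cj a

/-- `ℓ = p * conj p` is an odd prime number which splits in `K` -/
structure Spl (p : 𝓞 K) (ℓ : ℕ) : Prop where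
  prime : ℓ.Prime
  odd : ℓ ≠ 2
  mul : p * cK p = (ℓ : 𝓞 K)
  cop : IsCoprime p (cK p)

/-- the places of `ℂ` above `p` -/
def PlP (p : 𝓞 K) (A : ValuationSubring ℂ) : Prop := (embK (p : K))⁻¹ ∉ A

/-- the additive character `x ↦ exp(2πi tr(x / √d))` of `K`; its kernel is its own dual `𝓞 K` -/
noncomputable def exK (x : ℂ) : ℂ :=
  Complex.exp (((Real.pi / zt.im : ℝ) : ℂ) * (x - (starRingEnd ℂ) x))

/-- the additive characters of `F` -/
noncomputable def eF {F : Type*} [Field F] [Algebra K F] (y : F) (z : F) : ℂ :=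
  exK (embK (Algebra.trace K F (y * z)))

section
variable {F : Type u} [Field F] [NumberField F] [Algebra K F]

/-- The good weights on the class `t + m b`: invariant under the units congruent to `1` modulo `m`
and under the elements `β` congruent to `1` modulo `m` and to `ε` modulo `ℓ ^ k`, and a sum of
additive characters `eF y` with `y ∈ p ^ (-k) b^*` times functions which are `A`-integral and periodic
modulo `(conj p) ^ k m b`. -/
structure GoodW (p : 𝓞 K) (k : ℕ) (ε : 𝓞 K) (m b : Ideal (𝓞 F)) (t : 𝓞 F)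
    (A : ValuationSubring ℂ) (h : 𝓞 F → ℂ) : Prop where
  unit : ∀ u : (𝓞 F)ˣ, (u : 𝓞 F) - 1 ∈ m → ∀ z, z - t ∈ m * b → h (u * z) = h z
  beta : ∀ β : 𝓞 F, β - 1 ∈ m →
    algebraMap (𝓞 K) (𝓞 F) ((p * cK p) ^ k) ∣ β - algebraMap (𝓞 K) (𝓞 F) ε →
    ∀ z, z - t ∈ m * b → h (β * z) = h z
  exp : ∃ (ι : Type u) (_ : Fintype ι) (y : ι → F) (g : ι → 𝓞 F → ℂ),
    (∀ i, ∀ z ∈ b, ∃ a : 𝓞 K, (p : K) ^ k * Algebra.trace K F (y i * (z : F)) = a) ∧
    (∀ i z, g i z ∈ A) ∧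
    (∀ i z w, w ∈ Ideal.span {algebraMap (𝓞 K) (𝓞 F) (cK p ^ k)} * (m * b) →
      g i (z + w) = g i z) ∧
    ∀ z, z - t ∈ m * b → h z = ∑ i, eF (y i) (z : F) * g i z

end

/-- VAL: the partial series with good weights continue, with integral normalised value at `1`
(`d` is a generator of the relative norm of the different). -/
def ValW [HC] (p : 𝓞 K) (ℓ : ℕ) (ε : 𝓞 K) (F : Type u) [Field F] [NumberField F] [Algebra K F] :
    Prop :=
  ∀ (m b : Ideal (𝓞 F)) (t : 𝓞 F), m ≠ 0 → m ≤ Ideal.span {up HC.f F} →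
    IsCoprime m (Ideal.span {(ℓ : 𝓞 F)}) → b ≠ 0 → IsCoprime b (Ideal.span {(ℓ : 𝓞 F)}) →
    t ∈ b → t ∉ m * b → ∀ (k : ℕ) (A : ValuationSubring ℂ) (h : 𝓞 F → ℂ), PlP p A →
    GoodW p k ε m b t A h →
    ∃ g : ℂ → ℂ, Differentiable ℂ g ∧
      (∀ R : Set (𝓞 F), IsRep m b t R → ∀ s : ℂ, 2 < s.re →
        HasSum (fun r : R => h r * ((starRingEnd ℂ) (Nm ((r : 𝓞 F) : F)) *
          ((‖Nm ((r : 𝓞 F) : F)‖ : ℝ) : ℂ) ^ (-2 * s))) (g s)) ∧
      ∀ d : 𝓞 K, Ideal.relNorm (𝓞 K) (differentIdeal (𝓞 K) (𝓞 F)) = Ideal.span {d} →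
        A.valuation (g 1 / Om ^ finrank K F) ^ 2 * A.valuation (embK (d : K)) ≤ 1

/-- The normalised unit property above `p`. -/
def UnitW [HC] (p : 𝓞 K) (F : Type u) [Field F] [NumberField F] [Algebra K F] : Prop :=
  ∃ L : ℂ → ℂ, Differentiable ℂ L ∧ (∀ s : ℂ, 2 < s.re → L s = Lf (AN.psbC F) s) ∧
    ∀ A : ValuationSubring ℂ, PlP p A → ∀ d : 𝓞 K,
      Ideal.relNorm (𝓞 K) (differentIdeal (𝓞 K) (𝓞 F)) = Ideal.span {d} →
        A.valuation (L 1 / Om ^ finrank K F) ^ 2 * A.valuation (embK (d : K)) = 1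

end Pool.Agent.Lib.MP_1a91b9_nuW
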