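import Pool.Agent.Lib.MP_1a91b9_nuW.Defs
import Pool.Agent.Lib.MP_1a91b9_nuT.S6.Defs

/-!
# G7, file Ex: the additive characters

`exK x = exp(π / zt.im * (x - conj x))`; on `K` (embedded by `embK`) this is trivial exactly on the dual `𝓞 K`:
for `x = p + q zt` (`p, q` rational or real) `x - conj x = q * (2 I zt.im)`, so `exK x = exp(2 π I q)`.

PROOFS.
* `exK_lin`: `zt - conj zt = 2 I zt.im`, so for real `p, q`: `π / zt.im * ((p + q zt) - conj (p + q zt)) = 2 π I q` (`zt_ne`).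
* `exK_int`: `exists_coords`, `emb_coords` (nuT/Nrm.lean), `Complex.exp_int_mul_two_pi_mul_I`.
* `exK_faith`: `x = p + q om` with rational `p, q` (`exists_rat_coords` of nuT/BaseK.lean). `a = 1`: `exp(2 π I q) = 1`, so `q` is an
  integer. `a = ta`: `x ta = p om + q om² = p om + q (tr om - nm) = - q nm + (p + q tr) om`: `p + q tr` is an integer, so `p` is.
  (`Complex.exp_eq_one_iff`.)
* `exK_pow`: if `p ^ k x` is in `𝓞 K`, ... not needed.
* `eF_add_left`, `eF_add_right`: `Algebra.trace` is additive. `eF_mul`: `y * (a * z) = (y * a) * z`.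
* `eF_one`: for `y ∈ DL b`, `z ∈ b`: `trace (y z)` is in `𝓞 K` (definition of `DL`, file nuT/S6/Defs.lean), so `exK_int`.
* `eF_faith`: if `eF y z = 1` for all `z ∈ b` then `y ∈ DL b`: for `z ∈ b` and `a : 𝓞 K` also `a z ∈ b`, and
  `trace (y (a z)) = a trace (y z)`, so `exK (embK (trace (y z) * a)) = 1` for all `a`, apply `exK_faith`.
-/

set_option autoImplicit false

namespace Pool.Agent.Lib.MP_1a91b9_nuW

variable [Pool.Agent.Lib.MP_1a91b9_nuT.CD]

open Pool.Agent.Lib.MP_1a91b9_nuT hiding cj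
open NumberField Module

universe u

theorem exK_add (x y : ℂ) : exK (x + y) = exK x * exK y := by
  unfold exK
  rw [← Complex.exp_add, map_add]
  congr 1
  ring

theorem exK_zero : exK 0 = 1 := by
  unfold exK
  simp

theorem exK_neg (x : ℂ) : exK (-x) = (exK x)⁻¹ := by
  unfold exK
  rw [← Complex.exp_neg, map_neg]
  congr 1
  ring

theorem exK_sum {ι : Type*} (s : Finset ι) (x : ι → ℂ) : exK (∑ i ∈ s, x i) = ∏ i ∈ s, exK (x i) := by
  classical
  induction s using Finset.induction_on with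
  | empty => simp [exK_zero]
  | insert a s ha ih => rw [Finset.sum_insert ha, Finset.prod_insert ha, exK_add, ih]

theorem exK_nat (n : ℕ) (x : ℂ) : exK (n * x) = exK x ^ n := by
  induction n with
  | zero => simp [exK_zero]
  | succ n ih =>
    rw [pow_succ, ← ih, ← exK_add]
    congr 1
    push_cast
    ring

theorem norm_exK (x : ℂ) : ‖exK x‖ = 1 := by
  unfold exK
  rw [Complex.norm_exp]
  have h : (((Real.pi / zt.im : ℝ) : ℂ) * (x - (starRingEnd ℂ) x)).re = 0 := by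
    rw [Complex.re_ofReal_mul]
    simp
  rw [h, Real.exp_zero]

theorem exK_lin (p q : ℝ) : exK ((p : ℂ) + (q : ℂ) * zt) = Complex.exp (2 * Real.pi * Complex.I * q) := by
  unfold exK
  congr 1
  have hz := zt_ne
  apply Complex.ext
  · simp
  · rw [Complex.im_ofReal_mul]
    simp
    field_simp
    ring

theorem exK_int (a : 𝓞 K) : exK (embK (a : K)) = 1 := by
  obtain ⟨m, n, rfl⟩ := exists_coords a
  rw [emb_coords]
  have h := exK_lin (m : ℝ) (n : ℝ)
  push_cast at h
  rw [h]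
  have e : (2 * (Real.pi : ℂ) * Complex.I * (n : ℂ)) = (n : ℂ) * (2 * Real.pi * Complex.I) := by ring
  rw [e]
  exact Complex.exp_int_mul_two_pi_mul_I n

private theorem ex_rat (p q : ℚ) (h : exK (embK ((p : K) + (q : K) * om)) = 1) :
    ∃ n : ℤ, q = n := by
  have e : embK ((p : K) + (q : K) * om) = (((p : ℝ) : ℂ)) + (((q : ℝ) : ℂ)) * zt := by
    rw [map_add, map_mul, map_ratCast, map_ratCast, embK_om]
    push_cast
    ring
  rw [e, exK_lin, Complex.exp_eq_one_iff] at h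
  obtain ⟨n, hn⟩ := h
  refine ⟨n, ?_⟩
  have h2 : (2 * (Real.pi : ℂ) * Complex.I) ≠ 0 := Complex.two_pi_I_ne_zero
  have h3 : (((q : ℝ) : ℂ)) = (n : ℂ) := by
    have : (2 * (Real.pi : ℂ) * Complex.I) * (((q : ℝ) : ℂ)) =
        (2 * (Real.pi : ℂ) * Complex.I) * (n : ℂ) := by
      rw [hn]
      ring
    exact mul_left_cancel₀ h2 this
  exact_mod_cast h3

theorem exK_faith (x : K) (h : ∀ a : 𝓞 K, exK (embK (x * (a : K))) = 1) : ∃ b : 𝓞 K, x = b := by
  obtain ⟨p, q, rfl⟩ := exists_rat_coords x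
  have h1 := h 1
  have e1 : ((p : K) + (q : K) * om) * (((1 : 𝓞 K)) : K) = (p : K) + (q : K) * om := by
    have : (((1 : 𝓞 K)) : K) = 1 := map_one (algebraMap (𝓞 K) K)
    rw [this, mul_one]
  rw [e1] at h1
  obtain ⟨n, hn⟩ := ex_rat p q h1
  have h2 := h CD.ta
  have e2 : ((p : K) + (q : K) * om) * ((CD.ta : 𝓞 K) : K) =
      ((-(q * (CD.nm : ℚ)) : ℚ) : K) + ((p + q * (CD.tr : ℚ) : ℚ) : K) * om := by
    have := om_quad
    push_cast
    linear_combination (q : K) * this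
  rw [e2] at h2
  obtain ⟨m, hm⟩ := ex_rat _ _ h2
  refine ⟨((m - n * CD.tr : ℤ) : 𝓞 K) + ((n : ℤ) : 𝓞 K) * omO, ?_⟩
  rw [coe_lin]
  have hp : p = (m : ℚ) - n * (CD.tr : ℚ) := by
    rw [← hm, ← hn]
    ring
  rw [hp, hn]
  push_cast
  ring

section
variable {F : Type u} [Field F] [NumberField F] [Algebra K F]

theorem eF_add_left (y y' z : F) : eF (y + y') z = eF y z * eF y' z := by
  unfold eF
  rw [add_mul, map_add, map_add, exK_add]

theorem eF_add_right (y z z' : F) : eF y (z + z') = eF y z * eF y z' := by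
  unfold eF
  rw [mul_add, map_add, map_add, exK_add]

theorem eF_mul (y a z : F) : eF y (a * z) = eF (y * a) z := by
  unfold eF
  rw [mul_assoc]

theorem norm_eF (y z : F) : ‖eF y z‖ = 1 := by
  exact norm_exK _

theorem eF_one {b : Ideal (𝓞 F)} {y : F} (hy : y ∈ DL b) {z : 𝓞 F} (hz : z ∈ b) :
    eF y (z : F) = 1 := by
  obtain ⟨a, ha⟩ := hy z hz
  unfold eF
  rw [ha]
  exact exK_int a

theorem eF_faith {b : Ideal (𝓞 F)} {y : F} (h : ∀ z ∈ b, eF y ((z : 𝓞 F) : F) = 1) :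
    y ∈ DL b := by
  intro z hz
  apply exK_faith
  intro a
  have h1 := h (algebraMap (𝓞 K) (𝓞 F) a * z) (Ideal.mul_mem_left _ _ hz)
  unfold eF at h1
  have e : y * ((algebraMap (𝓞 K) (𝓞 F) a * z : 𝓞 F) : F) = (a : K) • (y * (z : F)) := by
    have e1 : ((algebraMap (𝓞 K) (𝓞 F) a * z : 𝓞 F) : F) =
        algebraMap K F (a : K) * (z : F) := by
      have e2 : ((algebraMap (𝓞 K) (𝓞 F) a * z : 𝓞 F) : F) =
          ((algebraMap (𝓞 K) (𝓞 F) a : 𝓞 F) : F) * (z : F) :=
        map_mul (algebraMap (𝓞 F) F) _ _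
      rw [e2]
      rfl
    rw [e1, Algebra.smul_def]
    ring
  rw [e, map_smul, smul_eq_mul, mul_comm] at h1
  exact h1

end

end Pool.Agent.Lib.MP_1a91b9_nuW
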